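import Pool.Agent.W57.AP4.Main
import Pool.Agent.W57.AP4.Enum

/-! Two interlaced orders of the positive integers, one for the positive and one for the negative
integers, and the resulting order of all integers. -/

set_option autoImplicit false

namespace Pool.Agent.Y643.AP

open Pool.Agent.W57.AP4

open Classical in
lemma exists_stepQ (a : State) (h : Inv a) (Q : ℕ) (hQ : 3 * a.M ≤ Q) :
    ∃ b, Inv b ∧ Step a b ∧ ∀ x, Q ≤ b.P x := by
  obtain ⟨h1, h2, h3⟩ := h
  obtain ⟨P, I, B, g⟩ := claim_all (T := fun t => t < a.P t) (s := a.s) (M := a.M)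
    (fun t ht => ht.trans_le (h2 t)) h1 Q
  have low : ∀ x, Q ≤ P x := fun x => g.lower x (by simp [Nat.mod_one])
  refine ⟨⟨fun v w => if I v w then a.s v w else !(a.s v w), P, max B 1⟩, ⟨?_, ?_, ?_⟩,
    ⟨I, ?_, ?_, ?_⟩, low⟩
  · obtain ⟨U, hU⟩ := h1
    obtain ⟨V, hV⟩ := g.fin
    refine ⟨max U V, fun u hu w => ?_⟩
    have e1 := hV u ((le_max_right _ _).trans hu) w
    have e2 := hV (u + 1) (((le_max_right _ _).trans hu).trans (by omega)) w
    simp only [e1, e2, if_false]
    rw [hU u ((le_max_left _ _).trans hu) w]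
  · intro x
    exact (g.upper x (by simp [Nat.mod_one])).trans (le_max_left _ _)
  · exact le_max_right _ _
  · intro x
    exact hQ.trans (low x)
  · intro v w hI
    refine ⟨by simp only [hI, if_true], ?_⟩
    exact g.int v w (Nat.zero_le _) (by simp [Nat.mod_one]) hI
  · intro v w hI
    refine ⟨by simp only [hI, if_false], ?_⟩
    exact g.leaf v w (Nat.zero_le _) (by simp [Nat.mod_one]) hI

lemma mkData (st : ℕ → State) (h2 : (st 0).M = 1)
    (h3 : ∀ n, Inv (st n)) (h4 : ∀ n, Step (st n) (st (n + 1))) :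
    ∃ D : Data, (∀ n x, D.P n x = (st (n + 1)).P x) ∧ ∀ n, D.M n = (st (n + 1)).M := by
  choose I hI1 hI2 hI3 using h4
  exact ⟨{
    s := fun n => (st n).s
    P := fun n => (st (n + 1)).P
    M := fun n => (st (n + 1)).M
    I := I
    le_M := fun n x => (h3 (n + 1)).2.1 x
    three := fun x => by have := hI1 0 x; rw [h2] at this; simpa using this
    grow := fun n x => hI1 (n + 1) x
    int1 := fun n v w h => (hI2 n v w h).1
    int2 := fun n v w h => (hI2 n v w h).2
    leaf1 := fun n v w h => (hI3 n v w h).1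
    leaf2 := fun n v w h => (hI3 n v w h).2.1
    leaf3 := fun n v w h => (hI3 (n + 1) v w h).2.2 }, fun _ _ => rfl, fun _ => rfl⟩

/-- Two interlaced data. -/
theorem exists_pair : ∃ D D' : Data, (∀ n x, 3 * D.M n ≤ D'.P n x) ∧
    (∀ n x, 3 * D'.M n ≤ D.P (n + 1) x) := by
  let a0 : State := ⟨fun u _ => decide (u % 2 = 1), fun _ => 0, 1⟩
  have h0 : Inv a0 := by
    refine ⟨⟨0, fun u _ w => ?_⟩, fun x => by simp [a0], le_rfl⟩
    simp only [a0]
    rcases Nat.mod_two_eq_zero_or_one u with h | h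
    · have : (u + 1) % 2 = 1 := by omega
      simp [h, this]
    · have : (u + 1) % 2 = 0 := by omega
      simp [h, this]
  have stp : ∀ p : State × State, Inv p.1 → Inv p.2 → ∃ q : State × State, Inv q.1 ∧ Inv q.2 ∧
      Step p.1 q.1 ∧ Step p.2 q.2 ∧ (∀ x, 3 * p.2.M ≤ q.1.P x) ∧ ∀ x, 3 * q.1.M ≤ q.2.P x := by
    intro p hp1 hp2
    obtain ⟨b, hb1, hb2, hb3⟩ := exists_stepQ p.1 hp1 (3 * max p.1.M p.2.M)
      (by have := le_max_left p.1.M p.2.M; omega)
    obtain ⟨c, hc1, hc2, hc3⟩ := exists_stepQ p.2 hp2 (3 * max p.2.M b.M)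
      (by have := le_max_left p.2.M b.M; omega)
    refine ⟨(b, c), hb1, hc1, hb2, hc2, fun x => ?_, fun x => ?_⟩
    · have := hb3 x
      have := le_max_right p.1.M p.2.M
      simp only
      omega
    · have := hc3 x
      have := le_max_right p.2.M b.M
      simp only
      omega
  choose! f hf1 hf2 hf3 hf4 hf5 hf6 using stp
  let st : ℕ → State × State := fun n => Nat.rec (a0, a0) (fun _ p => f p) n
  have hst : ∀ n, st (n + 1) = f (st n) := fun n => rfl
  have hinv : ∀ n, Inv (st n).1 ∧ Inv (st n).2 := by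
    intro n
    induction n with
    | zero => exact ⟨h0, h0⟩
    | succ n ih => rw [hst]; exact ⟨hf1 _ ih.1 ih.2, hf2 _ ih.1 ih.2⟩
  obtain ⟨D, hDP, hDM⟩ := mkData (fun n => (st n).1) rfl (fun n => (hinv n).1)
    (fun n => by rw [hst]; exact hf3 _ (hinv n).1 (hinv n).2)
  obtain ⟨D', hDP', hDM'⟩ := mkData (fun n => (st n).2) rfl (fun n => (hinv n).2)
    (fun n => by rw [hst]; exact hf4 _ (hinv n).1 (hinv n).2)
  refine ⟨D, D', fun n x => ?_, fun n x => ?_⟩
  · rw [hDM, hDP', hst]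
    exact hf6 _ (hinv n).1 (hinv n).2 x
  · rw [hDM', hDP, hst (n + 1)]
    exact hf5 _ (hinv (n + 1)).1 (hinv (n + 1)).2 x

section data

variable (D : Data)

/-- residues and bits of a progression -/
lemma bits {y d v m : ℕ} (hdv : d = 2 ^ v * (2 * m + 1)) :
    y % 2 ^ v = (y + d) % 2 ^ v ∧ (y + d) % 2 ^ v = (y + 2 * d) % 2 ^ v ∧
    (y + d).testBit v = !(y.testBit v) ∧ (y + 2 * d).testBit v = !((y + d).testBit v) := by
  have e : y + 2 * d = (y + d) + 2 ^ v * (2 * m + 1) := by rw [← hdv]; ring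
  refine ⟨?_, ?_, ?_, ?_⟩
  · rw [hdv, Data.add_mod_pow]
  · rw [e, Data.add_mod_pow]
  · conv_lhs => rw [hdv]
    rw [Data.testBit_add_odd]
  · rw [e, Data.testBit_add_odd]

/-- Three terms of one region are not monotone. -/
lemma three_same {y d k : ℕ} (hd : 0 < d) (h1 : k ≤ D.K y) (h2 : ∀ z, y + 2 * d < D.P k z)
    (l1 : D.key y < D.key (y + d)) (l2 : D.key (y + d) < D.key (y + 2 * d)) : False := by
  obtain ⟨v, m, hdv⟩ := Data.exists_pow_mul_odd hd
  obtain ⟨m1, m2, t1, t2⟩ := bits (y := y) hdv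
  have a := D.K_le_of_key l1
  have b := D.K_le_of_key l2
  have c : D.K (y + 2 * d) ≤ k := (D.K_le_iff _ _).2 (h2 _)
  have k1 : D.K y = D.K (y + d) := by omega
  have k2 : D.K (y + d) = D.K (y + 2 * d) := by omega
  exact (D.no_three k1 k2 m1 m2 t1 t2).1 ⟨l1, l2⟩

/-- There is no three-term progression in decreasing order. -/
lemma no_dec {y d : ℕ} (hd : 0 < d) (l1 : D.key (y + 2 * d) < D.key (y + d))
    (l2 : D.key (y + d) < D.key y) : False := by
  obtain ⟨v, m, hdv⟩ := Data.exists_pow_mul_odd hd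
  obtain ⟨m1, m2, t1, t2⟩ := bits (y := y) hdv
  set j := D.K (y + 2 * d) with hj
  have a := D.K_le_of_key l1
  have b := D.K_le_of_key l2
  have hM : y + 2 * d < D.M j := (D.K_spec (y + 2 * d)).trans_le (D.le_M _ _)
  have window : ∀ z, z ≤ y + 2 * d → j ≤ D.K z →
      (z < D.P j z ∧ D.K z = j) ∨ (D.P j z ≤ z ∧ D.K z = j + 1) := by
    intro z hz hk
    rcases lt_or_ge z (D.P j z) with h | h
    · have := (D.K_le_iff z j).2 h
      exact Or.inl ⟨h, by omega⟩
    · refine Or.inr ⟨h, D.K_eq_succ h ?_⟩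
      have := D.grow j z
      omega
  have w3 := window (y + 2 * d) le_rfl (by omega)
  have w2 := window (y + d) (by omega) (by omega)
  have w1 := window y (by omega) (by omega)
  by_cases hI : D.I j v (y % 2 ^ v)
  · by_cases hb : y.testBit v = D.s j v (y % 2 ^ v)
    · have := D.crossing (y := y + d) (z := y) (by rwa [← m1]) m1.symm
        (by rw [t1, ← m1, hb]) (by rw [← m1, hb]) w2 w1 l2
      omega
    · have hb' : y.testBit v = !(D.s j v (y % 2 ^ v)) := by
        revert hb; cases y.testBit v <;> cases D.s j v (y % 2 ^ v) <;> simp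
      have := D.crossing (y := y + 2 * d) (z := y + d) (by rwa [← m2, ← m1]) m2.symm
        (by rw [t2, t1, ← m2, ← m1, hb']; simp) (by rw [t1, ← m2, ← m1, hb']; simp) w3 w2 l1
      omega
  · have p2 : D.P j (y + d) = D.P j y := (D.leaf2 j v _ hI y (y + d) rfl m1.symm).symm
    have p3 : D.P j (y + 2 * d) = D.P j y :=
      (D.leaf2 j v _ hI y (y + 2 * d) rfl (m1.trans m2).symm).symm
    have hs := D.K_spec (y + 2 * d)
    rw [← hj, p3] at hs
    have k2 : D.K (y + d) = j := by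
      have := (D.K_le_iff (y + d) j).2 (by rw [p2]; omega)
      omega
    have k1 : D.K y = j := by
      have := (D.K_le_iff y j).2 (by omega)
      omega
    exact (D.no_three (k1.trans k2.symm) (k2.trans hj) m1 m2 t1 t2).2 ⟨l1, l2⟩

end data

/-! ### The order of the integers -/

section order

variable (D D' : Data)

/-- the key of an integer -/
noncomputable def zkey (z : ℤ) : ℕ ×ₗ Lex (ℕ → Bool) :=
  if z = 0 then toLex (0, toLex (fun _ => false))
  else if 0 < z then toLex (2 * D.K z.toNat + 1, toLex (D.code (D.K z.toNat) z.toNat))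
  else toLex (2 * D'.K (-z).toNat + 2, toLex (D'.code (D'.K (-z).toNat) (-z).toNat))

lemma zkey_zero : zkey D D' 0 = toLex (0, toLex (fun _ => false)) := by simp [zkey]

lemma zkey_pos {x : ℕ} (hx : 0 < x) :
    zkey D D' (x : ℤ) = toLex (2 * D.K x + 1, toLex (D.code (D.K x) x)) := by
  have h1 : (x : ℤ) ≠ 0 := by omega
  have h2 : (0 : ℤ) < x := by omega
  simp only [zkey, h1, h2, if_true, if_false, Int.toNat_natCast]

lemma zkey_neg {x : ℕ} (hx : 0 < x) :
    zkey D D' (-(x : ℤ)) = toLex (2 * D'.K x + 2, toLex (D'.code (D'.K x) x)) := by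
  have h1 : -(x : ℤ) ≠ 0 := by omega
  have h2 : ¬ (0 : ℤ) < -(x : ℤ) := by omega
  simp only [zkey, h1, h2, if_false, neg_neg, Int.toNat_natCast]

lemma lt_pos {x y : ℕ} (hx : 0 < x) (hy : 0 < y) :
    zkey D D' (x : ℤ) < zkey D D' (y : ℤ) ↔ D.key x < D.key y := by
  rw [zkey_pos D D' hx, zkey_pos D D' hy, Data.key, Data.key, Prod.Lex.toLex_lt_toLex,
    Prod.Lex.toLex_lt_toLex]
  constructor
  · rintro (h | ⟨h, h'⟩)
    · left; simp only at h ⊢; omega
    · right; exact ⟨by simp only at h ⊢; omega, h'⟩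
  · rintro (h | ⟨h, h'⟩)
    · left; simp only at h ⊢; omega
    · right; exact ⟨by simp only at h ⊢; omega, h'⟩

lemma lt_neg {x y : ℕ} (hx : 0 < x) (hy : 0 < y) :
    zkey D D' (-(x : ℤ)) < zkey D D' (-(y : ℤ)) ↔ D'.key x < D'.key y := by
  rw [zkey_neg D D' hx, zkey_neg D D' hy, Data.key, Data.key, Prod.Lex.toLex_lt_toLex,
    Prod.Lex.toLex_lt_toLex]
  constructor
  · rintro (h | ⟨h, h'⟩)
    · left; simp only at h ⊢; omega
    · right; exact ⟨by simp only at h ⊢; omega, h'⟩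
  · rintro (h | ⟨h, h'⟩)
    · left; simp only at h ⊢; omega
    · right; exact ⟨by simp only at h ⊢; omega, h'⟩

lemma lt_neg_pos {x y : ℕ} (hx : 0 < x) (hy : 0 < y)
    (h : zkey D D' (-(x : ℤ)) < zkey D D' (y : ℤ)) : D'.K x + 1 ≤ D.K y := by
  rw [zkey_neg D D' hx, zkey_pos D D' hy, Prod.Lex.toLex_lt_toLex] at h
  rcases h with h | ⟨h, -⟩
  · simp only at h; omega
  · simp only at h; omega

lemma lt_pos_neg {x y : ℕ} (hx : 0 < x) (hy : 0 < y)
    (h : zkey D D' (x : ℤ) < zkey D D' (-(y : ℤ))) : D.K x ≤ D'.K y := by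
  rw [zkey_pos D D' hx, zkey_neg D D' hy, Prod.Lex.toLex_lt_toLex] at h
  rcases h with h | ⟨h, -⟩
  · simp only at h; omega
  · simp only at h; omega

lemma not_lt_zero (z : ℤ) : ¬ zkey D D' z < zkey D D' 0 := by
  rcases lt_trichotomy z 0 with h | h | h
  · obtain ⟨x, rfl⟩ : ∃ x : ℕ, z = -(x : ℤ) := ⟨z.natAbs, by omega⟩
    rw [zkey_neg D D' (by omega), zkey_zero, Prod.Lex.toLex_lt_toLex]
    rintro (h' | ⟨h', -⟩)
    · simp only at h'; omega
    · simp only at h'; omega
  · rw [h]; exact lt_irrefl _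
  · obtain ⟨x, rfl⟩ : ∃ x : ℕ, z = (x : ℤ) := ⟨z.natAbs, by omega⟩
    rw [zkey_pos D D' (by omega), zkey_zero, Prod.Lex.toLex_lt_toLex]
    rintro (h' | ⟨h', -⟩)
    · simp only at h'; omega
    · simp only at h'; omega

lemma zkey_inj : Function.Injective (zkey D D') := by
  intro y z h
  rcases lt_trichotomy y 0 with hy | hy | hy <;> rcases lt_trichotomy z 0 with hz | hz | hz
  · obtain ⟨a, rfl⟩ : ∃ x : ℕ, y = -(x : ℤ) := ⟨y.natAbs, by omega⟩
    obtain ⟨b, rfl⟩ : ∃ x : ℕ, z = -(x : ℤ) := ⟨z.natAbs, by omega⟩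
    by_contra hne
    have hab : a ≠ b := fun e => hne (by rw [e])
    rcases D'.key_total hab with l | l
    · have := (lt_neg D D' (by omega) (by omega)).2 l
      rw [h] at this; exact lt_irrefl _ this
    · have := (lt_neg D D' (by omega) (by omega)).2 l
      rw [h] at this; exact lt_irrefl _ this
  · exfalso
    obtain ⟨a, rfl⟩ : ∃ x : ℕ, y = -(x : ℤ) := ⟨y.natAbs, by omega⟩
    rw [hz, zkey_zero, zkey_neg D D' (by omega)] at h
    have := congrArg (fun p => (ofLex p).1) h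
    simp at this
  · exfalso
    obtain ⟨a, rfl⟩ : ∃ x : ℕ, y = -(x : ℤ) := ⟨y.natAbs, by omega⟩
    obtain ⟨b, rfl⟩ : ∃ x : ℕ, z = (x : ℤ) := ⟨z.natAbs, by omega⟩
    rw [zkey_pos D D' (by omega), zkey_neg D D' (by omega)] at h
    have := congrArg (fun p => (ofLex p).1) h
    simp only [ofLex_toLex] at this
    omega
  · exfalso
    obtain ⟨a, rfl⟩ : ∃ x : ℕ, z = -(x : ℤ) := ⟨z.natAbs, by omega⟩
    rw [hy, zkey_zero, zkey_neg D D' (by omega)] at h
    have := congrArg (fun p => (ofLex p).1) h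
    simp at this
  · rw [hy, hz]
  · exfalso
    obtain ⟨a, rfl⟩ : ∃ x : ℕ, z = (x : ℤ) := ⟨z.natAbs, by omega⟩
    rw [hy, zkey_zero, zkey_pos D D' (by omega)] at h
    have := congrArg (fun p => (ofLex p).1) h
    simp at this
  · exfalso
    obtain ⟨a, rfl⟩ : ∃ x : ℕ, z = -(x : ℤ) := ⟨z.natAbs, by omega⟩
    obtain ⟨b, rfl⟩ : ∃ x : ℕ, y = (x : ℤ) := ⟨y.natAbs, by omega⟩
    rw [zkey_pos D D' (by omega), zkey_neg D D' (by omega)] at h
    have := congrArg (fun p => (ofLex p).1) h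
    simp only [ofLex_toLex] at this
    omega
  · exfalso
    obtain ⟨a, rfl⟩ : ∃ x : ℕ, y = (x : ℤ) := ⟨y.natAbs, by omega⟩
    rw [hz, zkey_zero, zkey_pos D D' (by omega)] at h
    have := congrArg (fun p => (ofLex p).1) h
    simp at this
  · obtain ⟨a, rfl⟩ : ∃ x : ℕ, y = (x : ℤ) := ⟨y.natAbs, by omega⟩
    obtain ⟨b, rfl⟩ : ∃ x : ℕ, z = (x : ℤ) := ⟨z.natAbs, by omega⟩
    by_contra hne
    have hab : a ≠ b := fun e => hne (by rw [e])
    rcases D.key_total hab with l | l
    · have := (lt_pos D D' (by omega) (by omega)).2 l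
      rw [h] at this; exact lt_irrefl _ this
    · have := (lt_pos D D' (by omega) (by omega)).2 l
      rw [h] at this; exact lt_irrefl _ this

lemma zkey_fin (z : ℤ) : {y | zkey D D' y < zkey D D' z}.Finite := by
  set N := (ofLex (zkey D D' z)).1 with hN
  have key : ∀ y, zkey D D' y < zkey D D' z → (ofLex (zkey D D' y)).1 ≤ N := by
    intro y hy
    have h : toLex (ofLex (zkey D D' y)) < toLex (ofLex (zkey D D' z)) := hy
    rw [Prod.Lex.toLex_lt_toLex] at h
    rcases h with h | ⟨h, -⟩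
    · exact h.le
    · exact h.le
  refine (Set.finite_Icc (-(D'.M N : ℤ)) (D.M N : ℤ)).subset fun y hy => ?_
  have h := key y hy
  rw [Set.mem_Icc]
  rcases lt_trichotomy y 0 with h0 | h0 | h0
  · obtain ⟨a, rfl⟩ : ∃ x : ℕ, y = -(x : ℤ) := ⟨y.natAbs, by omega⟩
    rw [zkey_neg D D' (by omega), ofLex_toLex] at h
    simp only at h
    have h2 := (D'.K_le_iff a N).1 (by omega)
    have h3 := D'.le_M N a
    omega
  · subst h0
    omega
  · obtain ⟨a, rfl⟩ : ∃ x : ℕ, y = (x : ℤ) := ⟨y.natAbs, by omega⟩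
    rw [zkey_pos D D' (by omega), ofLex_toLex] at h
    simp only at h
    have h2 := (D.K_le_iff a N).1 (by omega)
    have h3 := D.le_M N a
    omega

end order

/-- No monotone five-term progression of integers, increasing differences. -/
theorem no_five {D D' : Data} (h1 : ∀ n x, 3 * D.M n ≤ D'.P n x)
    (h2 : ∀ n x, 3 * D'.M n ≤ D.P (n + 1) x) (x : ℤ) (d : ℕ) (hd : 0 < d) :
    ¬ (zkey D D' x < zkey D D' (x + d) ∧ zkey D D' (x + d) < zkey D D' (x + 2 * d) ∧
        zkey D D' (x + 2 * d) < zkey D D' (x + 3 * d) ∧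
        zkey D D' (x + 3 * d) < zkey D D' (x + 4 * d)) ∧
    ¬ (zkey D D' (x + 4 * d) < zkey D D' (x + 3 * d) ∧
        zkey D D' (x + 3 * d) < zkey D D' (x + 2 * d) ∧
        zkey D D' (x + 2 * d) < zkey D D' (x + d) ∧ zkey D D' (x + d) < zkey D D' x) := by
  rcases lt_trichotomy (x + d) 0 with c1 | c1 | c1
  swap
  · exact ⟨fun h => not_lt_zero D D' x (by rw [c1] at h; exact h.1),
      fun h => not_lt_zero D D' (x + 2 * d) (by have := h.2.2.1; rwa [c1] at this)⟩
  swap
  · -- four positive terms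
    obtain ⟨y, hy⟩ : ∃ y : ℕ, x + d = (y : ℤ) := ⟨(x + d).natAbs, by omega⟩
    have y0 : 0 < y := by omega
    have e2 : x + 2 * d = ((y + d : ℕ) : ℤ) := by push_cast; linarith
    have e3 : x + 3 * d = ((y + 2 * d : ℕ) : ℤ) := by push_cast; linarith
    have e4 : x + 4 * d = ((y + 3 * d : ℕ) : ℤ) := by push_cast; linarith
    have nf := D.no_four y d y0 hd
    rw [hy, e2, e3, e4, lt_pos D D' y0 (by omega), lt_pos D D' (by omega) (by omega),
      lt_pos D D' (by omega) (by omega), lt_pos D D' (by omega) (by omega),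
      lt_pos D D' (by omega) (by omega), lt_pos D D' (by omega) (by omega)]
    exact ⟨fun h => nf.1 h.2, fun h => nf.2 ⟨h.1, h.2.1, h.2.2.1⟩⟩
  rcases lt_trichotomy (x + 2 * d) 0 with c2 | c2 | c2
  swap
  · exact ⟨fun h => not_lt_zero D D' (x + d) (by have := h.2.1; rwa [c2] at this),
      fun h => not_lt_zero D D' (x + 3 * d) (by have := h.2.1; rwa [c2] at this)⟩
  swap
  · -- two negative and three positive terms
    obtain ⟨u, hu⟩ : ∃ u : ℕ, x + d = -(u : ℤ) := ⟨(x + d).natAbs, by omega⟩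
    obtain ⟨y, hy⟩ : ∃ y : ℕ, x + 2 * d = (y : ℤ) := ⟨(x + 2 * d).natAbs, by omega⟩
    have u0 : 0 < u := by omega
    have y0 : 0 < y := by omega
    have hyd : y + u = d := by omega
    have e0 : x = -((u + d : ℕ) : ℤ) := by push_cast; linarith
    have e3 : x + 3 * d = ((y + d : ℕ) : ℤ) := by push_cast; linarith
    have e4 : x + 4 * d = ((y + 2 * d : ℕ) : ℤ) := by push_cast; linarith
    constructor
    · rintro ⟨a1, a2, a3, a4⟩
      rw [hy, e3, lt_pos D D' y0 (by omega)] at a3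
      rw [e3, e4, lt_pos D D' (by omega) (by omega)] at a4
      have a5 := a1.trans a2
      rw [hy] at a5
      rw [e0] at a5
      have a6 := lt_neg_pos D D' (by omega) y0 a5
      refine three_same D (k := D'.K (u + d) + 1) hd a6 (fun z => ?_) a3 a4
      have b1 := (D'.K_spec (u + d)).trans_le (D'.le_M _ _)
      have b2 := h2 (D'.K (u + d)) z
      omega
    · rintro ⟨a1, a2, -, -⟩
      rw [e3, e4, lt_pos D D' (by omega) (by omega)] at a1
      rw [hy, e3, lt_pos D D' (by omega) y0] at a2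
      exact no_dec D hd a1 a2
  rcases lt_trichotomy (x + 3 * d) 0 with c3 | c3 | c3
  swap
  · exact ⟨fun h => not_lt_zero D D' (x + 2 * d) (by have := h.2.2.1; rwa [c3] at this),
      fun h => not_lt_zero D D' (x + 4 * d) (by have := h.1; rwa [c3] at this)⟩
  swap
  · -- three negative and two positive terms
    obtain ⟨u, hu⟩ : ∃ u : ℕ, x + 3 * d = (u : ℤ) := ⟨(x + 3 * d).natAbs, by omega⟩
    obtain ⟨y, hy⟩ : ∃ y : ℕ, x + 2 * d = -(y : ℤ) := ⟨(x + 2 * d).natAbs, by omega⟩
    have u0 : 0 < u := by omega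
    have y0 : 0 < y := by omega
    have hyd : y + u = d := by omega
    have e0 : x = -((y + 2 * d : ℕ) : ℤ) := by push_cast; linarith
    have e1 : x + d = -((y + d : ℕ) : ℤ) := by push_cast; linarith
    have e4 : x + 4 * d = ((u + d : ℕ) : ℤ) := by push_cast; linarith
    constructor
    · rintro ⟨a1, a2, -, -⟩
      rw [hy, e1, lt_neg D D' (by omega) y0] at a2
      rw [e1, e0, lt_neg D D' (by omega) (by omega)] at a1
      exact no_dec D' hd a1 a2
    · rintro ⟨a1, a2, a3, a4⟩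
      rw [hy, e1, lt_neg D D' y0 (by omega)] at a3
      rw [e1, e0, lt_neg D D' (by omega) (by omega)] at a4
      have a5 := a1.trans a2
      rw [hy, e4] at a5
      have a6 := lt_pos_neg D D' (by omega) y0 a5
      refine three_same D' (k := D.K (u + d)) hd a6 (fun z => ?_) a3 a4
      have b1 := (D.K_spec (u + d)).trans_le (D.le_M _ _)
      have b2 := h1 (D.K (u + d)) z
      omega
  -- four negative terms
  obtain ⟨y, hy⟩ : ∃ y : ℕ, x + 3 * d = -(y : ℤ) := ⟨(x + 3 * d).natAbs, by omega⟩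
  have y0 : 0 < y := by omega
  have e2 : x + 2 * d = -((y + d : ℕ) : ℤ) := by push_cast; linarith
  have e1 : x + d = -((y + 2 * d : ℕ) : ℤ) := by push_cast; linarith
  have e0 : x = -((y + 3 * d : ℕ) : ℤ) := by push_cast; linarith
  have nf := D'.no_four y d y0 hd
  constructor
  · rintro ⟨a1, a2, a3, -⟩
    rw [hy, e2, lt_neg D D' (by omega) y0] at a3
    rw [e2, e1, lt_neg D D' (by omega) (by omega)] at a2
    rw [e1, e0, lt_neg D D' (by omega) (by omega)] at a1
    exact nf.2 ⟨a1, a2, a3⟩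
  · rintro ⟨-, a2, a3, a4⟩
    rw [hy, e2, lt_neg D D' y0 (by omega)] at a2
    rw [e2, e1, lt_neg D D' (by omega) (by omega)] at a3
    rw [e1, e0, lt_neg D D' (by omega) (by omega)] at a4
    exact nf.1 ⟨a2, a3, a4⟩

end Pool.Agent.Y643.AP
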